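import Pool.Agent.Y521.SD.Main

/-!
# Directionally monotone homeomorphisms onto `S¹ × S³` and the twisted product

The two manifolds are quotients of `ℝ⁴ ∖ 0` by the infinite cyclic groups generated by `x ↦ 2 x` and
by `x ↦ 2 r(x)`, where `r` is a reflection. We use the corresponding affine coordinates.
Two smooth 4-manifolds with homeomorphisms onto `S¹ × S³` which are directionally monotone in these
coordinates are diffeomorphic, and similarly for the twisted product.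
-/

set_option autoImplicit false

open Set Filter Topology Metric Function
open scoped Manifold ContDiff

noncomputable section

namespace Pool.Agent.Results.MP_6db3ee_gt.DirectionallyMonotone

/-- Euclidean 4-space -/
abbrev R4 : Type := EuclideanSpace ℝ (Fin 4)

/-- `S¹ × S³` -/
def Prd : Type := Circle × sphere (0 : R4) 1

/-- `S¹ × S³` has the product topology -/
instance topPrd : TopologicalSpace Prd :=
  inferInstanceAs (TopologicalSpace (Circle × sphere (0 : R4) 1))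

/-- the twisted product of `S¹` and `S³`, as in the frozen statement -/
def Twd : Type := {p : ℂ × ℂ × EuclideanSpace ℝ (Fin 3) //
  ‖p.1‖ = 1 ∧ p.2.1 ^ 2 = ((‖p.2.1‖ ^ 2 : ℝ) : ℂ) * p.1 ∧ ‖p.2.1‖ ^ 2 + ‖p.2.2‖ ^ 2 = 1}

/-- the twisted product has the subspace topology -/
instance topTwd : TopologicalSpace Twd :=
  inferInstanceAs (TopologicalSpace {p : ℂ × ℂ × EuclideanSpace ℝ (Fin 3) //
    ‖p.1‖ = 1 ∧ p.2.1 ^ 2 = ((‖p.2.1‖ ^ 2 : ℝ) : ℂ) * p.1 ∧ ‖p.2.1‖ ^ 2 + ‖p.2.2‖ ^ 2 = 1})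

/-- The point `t` of `S¹ × S³` has the affine coordinate `x`: its first component is the logarithm
of the norm of `x` modulo one, its second component is the direction of `x`. -/
def OverP (x : R4) (t : Prd) : Prop :=
  x ≠ 0 ∧ t.1 = Circle.exp (2 * Real.pi * Real.logb 2 ‖x‖) ∧ (t.2 : R4) = ‖x‖⁻¹ • x

/-- The point `t` of the twisted product has the affine coordinate `x`. -/
def OverT (x : R4) (t : Twd) : Prop :=
  x ≠ 0 ∧ t.1.1 = Complex.exp (2 * Real.pi * Real.logb 2 ‖x‖ * Complex.I) ∧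
    t.1.2.1 = ((‖x‖⁻¹ * x 0 : ℝ) : ℂ) * Complex.exp (Real.pi * Real.logb 2 ‖x‖ * Complex.I) ∧
    ∀ i : Fin 3, t.1.2.2 i = ‖x‖⁻¹ * x i.succ

/-- For every direction `v` there is a linear functional `l` such that `l ∘ G` is strictly
increasing near `0` in all directions near `v`. -/
def Increasing (G : R4 → R4) : Prop :=
  ∀ v : R4, v ≠ 0 → ∃ (r : ℝ) (l : R4 →L[ℝ] ℝ), 0 < r ∧
    ∀ p q : R4, ‖p‖ ≤ r → ‖q‖ ≤ r → ∀ t : ℝ, 0 < t → ‖q - p - t • v‖ ≤ r * t → l (G p) < l (G q)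

section defs

variable {M T : Type} [TopologicalSpace M] [ChartedSpace R4 M]

/-- `f : ℝ⁴ → M` is a local diffeomorphism at `0` -/
def LocDiff (f : R4 → M) : Prop := IsLocalDiffeomorphAt (𝓡 4) (𝓡 4) ∞ f 0

/-- `h : M → T` is directionally monotone at `x`: read in a smooth parametrization `A` of `M` around
`x` and in the affine coordinates of `T`, the map `h` becomes a map `G`, continuous near `0`, which
is either increasing in the above sense or a local diffeomorphism at `0`. -/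
def DirMon (Over : R4 → T → Prop) (h : M → T) (x : M) : Prop :=
  ∃ (A : R4 → M) (G : R4 → R4) (r : ℝ), 0 < r ∧ A 0 = x ∧ LocDiff A ∧ ContinuousOn G (ball 0 r) ∧
    (∀ p ∈ ball 0 r, Over (G p) (h (A p))) ∧ (Increasing G ∨ LocDiff G)

/-- `M` and `N` are diffeomorphic -/
def Diffeomorphic (M N : Type) [TopologicalSpace M] [ChartedSpace R4 M] [TopologicalSpace N]
    [ChartedSpace R4 N] : Prop :=
  Nonempty (Diffeomorph (𝓡 4) (𝓡 4) M N ∞)

end defs

open Pool.Agent.Y522 Pool.Agent.Y521.SD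

/-- maps which are strictly differentiable with invertible derivative are increasing -/
theorem inc_aux (G : E 4 → E 4) (e : E 4 ≃L[ℝ] E 4)
    (hst : HasStrictFDerivAt G (e : E 4 →L[ℝ] E 4) 0) (v : E 4) (hv : v ≠ 0) :
    ∃ (r : ℝ) (l : E 4 →L[ℝ] ℝ), 0 < r ∧ ∀ p q : E 4, ‖p‖ ≤ r → ‖q‖ ≤ r →
        ∀ t : ℝ, 0 < t → ‖q - p - t • v‖ ≤ r * t → l (G p) < l (G q) := by
  have hw0 : e v ≠ 0 := by
    exact fun h => hv ((map_eq_zero_iff e e.injective).1 h)
  have hwn : 0 < ‖e v‖ := norm_pos_iff.2 hw0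
  obtain ⟨c, hc0, hcv⟩ : ∃ c : ℝ, 0 < c ∧ c * (‖v‖ + 1) = ‖e v‖ / 4 :=
    ⟨‖e v‖ / (4 * (‖v‖ + 1)), by positivity, by field_simp⟩
  obtain ⟨r₁, hr₁0, hre⟩ : ∃ r₁ : ℝ, 0 < r₁ ∧ ‖(e : E 4 →L[ℝ] E 4)‖ * r₁ ≤ ‖e v‖ / 4 := by
    refine ⟨‖e v‖ / (4 * (‖(e : E 4 →L[ℝ] E 4)‖ + 1)), by positivity, ?_⟩
    rw [mul_div_assoc', div_le_div_iff₀ (by positivity) (by norm_num)]
    nlinarith [norm_nonneg (e : E 4 →L[ℝ] E 4)]
  have h2 : ∀ᶠ y : E 4 × E 4 in 𝓝 (0, 0),
      ‖G y.1 - G y.2 - e (y.1 - y.2)‖ ≤ c * ‖y.1 - y.2‖ :=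
    (hasStrictFDerivAt_iff_isLittleO.1 hst).bound hc0
  obtain ⟨s, hs, hs2⟩ := Metric.eventually_nhds_iff.1 h2
  refine ⟨min (s / 2) (min 1 r₁), innerSL ℝ (e v), lt_min (by linarith) (lt_min one_pos hr₁0), ?_⟩
  intro p q hp hq t ht hpq
  have h3 : ‖G q - G p - e (q - p)‖ ≤ c * ‖q - p‖ := by
    have h31 : dist ((q, p) : E 4 × E 4) (0, 0) < s := by
      rw [Prod.dist_eq, dist_zero_right, dist_zero_right]
      have h32 := hp.trans (min_le_left _ _)
      have h33 := hq.trans (min_le_left _ _)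
      exact max_lt (by change ‖q‖ < s; linarith) (by change ‖p‖ < s; linarith)
    exact @hs2 (q, p) h31
  have h4 : ‖q - p - t • v‖ ≤ 1 * t :=
    hpq.trans (mul_le_mul_of_nonneg_right ((min_le_right _ _).trans (min_le_left _ _)) ht.le)
  have h5 : ‖q - p - t • v‖ ≤ r₁ * t :=
    hpq.trans (mul_le_mul_of_nonneg_right ((min_le_right _ _).trans (min_le_right _ _)) ht.le)
  have h6 : ‖q - p‖ ≤ t * (‖v‖ + 1) := by
    have h62 : ‖q - p‖ ≤ ‖q - p - t • v‖ + ‖t • v‖ := by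
      simpa using norm_add_le (q - p - t • v) (t • v)
    rw [norm_smul, Real.norm_eq_abs, abs_of_pos ht] at h62
    linarith
  obtain ⟨a, ha⟩ : ∃ a, a = G q - G p - e (q - p) := ⟨_, rfl⟩
  obtain ⟨b, hb⟩ : ∃ b, b = q - p - t • v := ⟨_, rfl⟩
  rw [← ha] at h3
  rw [← hb] at h5
  have h7 : G q = G p + (a + e b + t • e v) := by
    have h8 : e b = e (q - p) - t • e v := by
      rw [hb, map_sub, map_smul]
    rw [h8, ha]
    abel
  have h10 : ‖e b‖ ≤ ‖(e : E 4 →L[ℝ] E 4)‖ * (r₁ * t) :=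
    ((e : E 4 →L[ℝ] E 4).le_opNorm b).trans (mul_le_mul_of_nonneg_left h5 (norm_nonneg _))
  have h11 : c * ‖q - p‖ ≤ t * (‖e v‖ / 4) := by
    have h12 : c * ‖q - p‖ ≤ c * (t * (‖v‖ + 1)) := mul_le_mul_of_nonneg_left h6 hc0.le
    have h13 : c * (t * (‖v‖ + 1)) = t * (c * (‖v‖ + 1)) := by ring
    rw [h13, hcv] at h12
    exact h12
  have h14 : ‖(e : E 4 →L[ℝ] E 4)‖ * (r₁ * t) ≤ t * (‖e v‖ / 4) := by
    have h15 : ‖(e : E 4 →L[ℝ] E 4)‖ * (r₁ * t) = t * (‖(e : E 4 →L[ℝ] E 4)‖ * r₁) := by ring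
    rw [h15]
    exact mul_le_mul_of_nonneg_left hre ht.le
  have h9 : |inner ℝ (e v) (a + e b)| ≤ ‖e v‖ * (t * (‖e v‖ / 2)) := by
    refine (abs_real_inner_le_norm _ _).trans ?_
    refine mul_le_mul_of_nonneg_left ?_ hwn.le
    refine (norm_add_le _ _).trans ?_
    linarith
  rw [innerSL_apply_apply, innerSL_apply_apply, h7, inner_add_right, inner_add_right,
    inner_smul_right, real_inner_self_eq_norm_sq]
  have h12 := (abs_le.1 h9).1
  have h13 : 0 < t * ‖e v‖ ^ 2 := by positivity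
  have h16 : ‖e v‖ * (t * (‖e v‖ / 2)) = t * ‖e v‖ ^ 2 / 2 := by ring
  rw [h16] at h12
  linarith

/-- local diffeomorphisms are increasing -/
theorem increasing_of_ld (G : E 4 → E 4) (hG : LD 4 G 0) : Increasing G := by
  intro v hv
  obtain ⟨e, he⟩ := hG.exists_equiv
  exact inc_aux G e (hG.contDiffAt.hasStrictFDerivAt' he (by simp)) v hv

/-- from charts to the manifold -/
theorem dmp_of {M T : Type} [TopologicalSpace M] [ChartedSpace (E 4) M] [IsManifold (𝓡 4) ∞ M]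
    [TopologicalSpace T] (π : E 4 → T) (Over : E 4 → T → Prop)
    (hO : ∀ x t, Over x t → x ≠ 0 ∧ π x = t) (h : M → T) (x : M) (hx : DirMon Over h x) :
    DMp 4 {v : E 4 | v ≠ 0} π h x := by
  obtain ⟨A, G, r, hr, hA0, hA, hG, hGO, hI⟩ := hx
  have hI' : Increasing G := hI.elim id (increasing_of_ld G)
  have hA' : LD 4 A 0 := hA
  obtain ⟨p, hp1, hp2, hp3, hp4⟩ := hA'.exists_inverse
  rw [hA0] at hp1 hp2 hp4
  refine ⟨fun y => G (p y), ⟨?_, ?_⟩, A, hA0, hA', ?_⟩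
  · change G (p x) ≠ 0
    rw [hp2]
    exact (hO _ _ (hGO 0 (mem_ball_self hr))).1
  · have h1 : ∀ᶠ y in 𝓝 x, p y ∈ ball (0 : E 4) r :=
      hp1.continuousAt.eventually (by
        rw [hp2]
        exact ball_mem_nhds 0 hr)
    filter_upwards [hp1.eventually, h1, hp4] with y hy hy1 hy2
    refine ⟨?_, ?_⟩
    · exact ContinuousAt.comp (g := G) (hG.continuousAt (isOpen_ball.mem_nhds hy1))
        hy.continuousAt
    · rw [(hO _ _ (hGO _ hy1)).2, hy2]
  · intro v hv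
    obtain ⟨s, l, hs, hl⟩ := hI' v hv
    obtain ⟨s', hs', hp3'⟩ := (nhds_basis_closedBall.eventually_iff).1 hp3
    refine ⟨min s s', l, lt_min hs hs', ?_⟩
    intro a b ha hb t ht hab
    have e1 : p (A a) = a := hp3' (by simpa using ha.trans (min_le_right _ _))
    have e2 : p (A b) = b := hp3' (by simpa using hb.trans (min_le_right _ _))
    change l (G (p (A a))) < l (G (p (A b)))
    rw [e1, e2]
    exact hl a b (ha.trans (min_le_left _ _)) (hb.trans (min_le_left _ _)) t ht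
      (hab.trans (mul_le_mul_of_nonneg_right (min_le_left _ _) ht.le))

theorem over_pS (x : E 4) (t : Prd) (h : OverP x t) : x ≠ 0 ∧ pS x = t := by
  obtain ⟨h0, h1, h2⟩ := h
  refine ⟨h0, Prod.ext ?_ (Subtype.ext ?_)⟩
  · rw [h1]
    rfl
  · rw [h2]
    exact Pool.Agent.Y288.SD.pS_snd h0

/-- the developing map of the twisted product -/
def pTwd (h1 : ∀ x : E 4, x ≠ 0 → ‖(pTw x).1‖ = 1 ∧
    (pTw x).2.1 ^ 2 = ((‖(pTw x).2.1‖ ^ 2 : ℝ) : ℂ) * (pTw x).1 ∧
    ‖(pTw x).2.1‖ ^ 2 + ‖(pTw x).2.2‖ ^ 2 = 1) (x : E 4) : Tw :=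
  open Classical in
  if h : x = 0 then ⟨pTw (EuclideanSpace.single 0 1), h1 _ (by
    intro h
    have := congrArg (fun v : E 4 => v 0) h
    simp at this)⟩ else ⟨pTw x, h1 x h⟩

theorem pTwd_eq (h1) (x : E 4) (hx : x ≠ 0) : (pTwd h1 x).1 = pTw x := by
  unfold pTwd
  rw [dif_neg hx]

theorem over_pT (h1) (x : E 4) (t : Twd) (h : OverT x t) :
    x ≠ 0 ∧ @Eq Twd (pTwd h1 x) t := by
  obtain ⟨h0, h2, h3, h4⟩ := h
  refine ⟨h0, Subtype.ext ?_⟩
  rw [pTwd_eq h1 x h0]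
  refine Prod.ext h2.symm (Prod.ext h3.symm ?_)
  ext i
  exact (h4 i).symm

/-- affine manifolds with this developing map are connected -/
theorem connected_of {T : Type} [TopologicalSpace T] (π : E 4 → T)
    (h : Aff 4 {x : E 4 | x ≠ 0} π) : ConnectedSpace T := by
  have h1 : IsConnected ({x : E 4 | x ≠ 0}) := by
    have := isConnected_compl_singleton_of_one_lt_rank (E := E 4) (by
      rw [← Module.finrank_eq_rank, finrank_euclideanSpace_fin]
      norm_num) 0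
    exact this
  have h2 := h1.image π h.cont
  have h3 : π '' {x : E 4 | x ≠ 0} = univ := by
    ext t
    obtain ⟨v, hv, hvt⟩ := h.surj t
    exact ⟨fun _ => mem_univ _, fun _ => ⟨v, hv, hvt⟩⟩
  rw [h3] at h2
  exact connectedSpace_iff_univ.2 h2

/-- the twisted product is compact -/
theorem compact_Twd : CompactSpace Twd := by
  apply isCompact_iff_compactSpace.1
  apply Metric.isCompact_of_isClosed_isBounded
  · have c1 : IsClosed {p : ℂ × ℂ × E 3 | ‖p.1‖ = 1} :=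
      isClosed_eq (by fun_prop) continuous_const
    have c2 : IsClosed {p : ℂ × ℂ × E 3 | p.2.1 ^ 2 = ((‖p.2.1‖ ^ 2 : ℝ) : ℂ) * p.1} :=
      isClosed_eq (by fun_prop) (by fun_prop)
    have c3 : IsClosed {p : ℂ × ℂ × E 3 | ‖p.2.1‖ ^ 2 + ‖p.2.2‖ ^ 2 = 1} :=
      isClosed_eq (by fun_prop) continuous_const
    exact c1.inter (c2.inter c3)
  · refine (isBounded_closedBall (x := (0 : ℂ × ℂ × E 3)) (r := 1)).subset ?_
    rintro ⟨a, b, c⟩ ⟨h1, h2, h3⟩
    simp only at h1 h2 h3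
    rw [mem_closedBall, dist_zero_right, Prod.norm_def, Prod.norm_def]
    refine max_le h1.le (max_le ?_ ?_)
    · change ‖b‖ ≤ 1
      nlinarith [norm_nonneg b, norm_nonneg c]
    · change ‖c‖ ≤ 1
      nlinarith [norm_nonneg b, norm_nonneg c]

theorem result (M N : Type) [TopologicalSpace M] [ChartedSpace R4 M] [IsManifold (𝓡 4) ∞ M]
    [TopologicalSpace N] [ChartedSpace R4 N] [IsManifold (𝓡 4) ∞ N] :
    (∀ (h : M ≃ₜ Prd) (k : N ≃ₜ Prd), (∀ x, DirMon OverP h x) → (∀ y, DirMon OverP k y) →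
      Diffeomorphic M N) ∧
    (∀ (h : M ≃ₜ Twd) (k : N ≃ₜ Twd), (∀ x, DirMon OverT h x) → (∀ y, DirMon OverT k y) →
      Diffeomorphic M N) := by
  constructor
  · intro h k hh hk
    have : T2Space Prd := inferInstanceAs (T2Space (Circle × sphere (0 : E 4) 1))
    have : CompactSpace Prd := inferInstanceAs (CompactSpace (Circle × sphere (0 : E 4) 1))
    have : ConnectedSpace Prd := connected_of pS stS
    exact stDiff 4 Prd {x : E 4 | x ≠ 0} pS M N h k stS
      (fun x => dmp_of pS OverP over_pS h x (hh x))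
      (fun y => dmp_of pS OverP over_pS k y (hk y))
  · intro h k hh hk
    have hT := stTw.2 (pTwd stTw.1) (pTwd_eq stTw.1)
    have : T2Space Twd := inferInstanceAs (T2Space Tw)
    have : ConnectedSpace Twd := connected_of _ hT
    have : CompactSpace Twd := compact_Twd
    exact stDiff 4 Twd {x : E 4 | x ≠ 0} (pTwd stTw.1) M N h k hT
      (fun x => dmp_of _ OverT (over_pT stTw.1) h x (hh x))
      (fun y => dmp_of _ OverT (over_pT stTw.1) k y (hk y))

end Pool.Agent.Results.MP_6db3ee_gt.DirectionallyMonotone
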